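import Mathlib

/-!
# Kernels of half-homomorphisms of Moufang loops are normal

`Q` is a Moufang loop, `Q'` an arbitrary loop, `φ : Q → Q'` a map such that for all `a`, `b` the
element `φ (a * b)` is one of `φ a * φ b`, `φ b * φ a`.  Then `{a | φ a = 1}` is a normal subloop
of `Q`.
-/

set_option autoImplicit false

namespace Pool.Agent.Results.MP_d39372_al

universe u v

/-- A loop: a set with a binary operation, a two-sided identity element `1`, and unique solutions of
the equations `a * x = b` and `y * a = b`. -/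
class Loop (Q : Type u) extends Mul Q, One Q where
  one_mul' : ∀ a : Q, 1 * a = a
  mul_one' : ∀ a : Q, a * 1 = a
  left_solve : ∀ a b : Q, ∃! x : Q, a * x = b
  right_solve : ∀ a b : Q, ∃! y : Q, y * a = b

/-- The Moufang identity `x(y(xz)) = ((xy)x)z`. -/
def IsMoufang (Q : Type u) [Loop Q] : Prop :=
  ∀ x y z : Q, x * (y * (x * z)) = ((x * y) * x) * z

/-- A half-homomorphism of loops. -/
def IsHalfHom {Q : Type u} {Q' : Type v} [Loop Q] [Loop Q'] (φ : Q → Q') : Prop :=
  ∀ a b : Q, φ (a * b) = φ a * φ b ∨ φ (a * b) = φ b * φ a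

/-- A subloop: a subset containing `1`, closed under multiplication and under the solutions of the
equations `a * x = b` and `y * a = b`. -/
def IsSubloop {Q : Type u} [Loop Q] (K : Set Q) : Prop :=
  1 ∈ K ∧ (∀ a ∈ K, ∀ b ∈ K, a * b ∈ K) ∧
    (∀ a ∈ K, ∀ b ∈ K, ∀ x : Q, a * x = b → x ∈ K) ∧
    (∀ a ∈ K, ∀ b ∈ K, ∀ y : Q, y * a = b → y ∈ K)

/-- A normal subloop: a subloop `K` with `xK = Kx`, `x(yK) = (xy)K`, `(Kx)y = K(xy)` for all
`x`, `y`. -/
def IsNormalSubloop {Q : Type u} [Loop Q] (K : Set Q) : Prop :=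
  IsSubloop K ∧ ∀ x y : Q,
    ((fun k => x * k) '' K = (fun k => k * x) '' K) ∧
    ((fun k => x * (y * k)) '' K = (fun k => (x * y) * k) '' K) ∧
    ((fun k => (k * x) * y) '' K = (fun k => k * (x * y)) '' K)

section Basic
variable {Q : Type u} [Loop Q]

theorem one_mul (a : Q) : 1 * a = a := Loop.one_mul' a
theorem mul_one (a : Q) : a * 1 = a := Loop.mul_one' a

theorem lcan {a x y : Q} (h : a * x = a * y) : x = y :=
  (Loop.left_solve a (a * y)).unique h rfl

theorem rcan {a x y : Q} (h : x * a = y * a) : x = y :=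
  (Loop.right_solve a (y * a)).unique h rfl

/-- the right inverse -/
noncomputable instance : Inv Q := ⟨fun a => (Loop.left_solve a 1).choose⟩

theorem mul_inv (a : Q) : a * a⁻¹ = 1 := (Loop.left_solve a 1).choose_spec.1

end Basic

section Mouf
variable {Q : Type u} [Loop Q] (h : IsMoufang Q)
include h

theorem flex (x y : Q) : (x * y) * x = x * (y * x) := by
  have := h x y 1
  rw [mul_one, mul_one] at this
  exact this.symm

theorem lip (x z : Q) : x⁻¹ * (x * z) = z := by
  have := h x x⁻¹ z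
  rw [mul_inv, one_mul] at this
  exact lcan this

theorem inv_mul (x : Q) : x⁻¹ * x = 1 := by
  have := lip h x 1
  rwa [mul_one] at this

theorem inv_inv (x : Q) : (x⁻¹)⁻¹ = x :=
  lcan (a := x⁻¹) ((mul_inv _).trans (inv_mul h x).symm)

theorem lip' (x z : Q) : x * (x⁻¹ * z) = z := by
  have := lip h x⁻¹ z
  rwa [inv_inv h] at this

theorem rip (w x : Q) : (w * x) * x⁻¹ = w := by
  have h0 : x * (x⁻¹ * w) = w := lip' h x w
  have h1 := h x (x⁻¹ * w) x⁻¹
  rw [mul_inv, mul_one, h0] at h1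
  exact h1.symm

theorem rip' (w x : Q) : (w * x⁻¹) * x = w := by
  have := rip h w x⁻¹
  rwa [inv_inv h] at this

theorem inv_rev (x y : Q) : (x * y)⁻¹ = y⁻¹ * x⁻¹ := by
  have h1 : (x * y)⁻¹ * x = y⁻¹ := by
    have := lip h (x * y) y⁻¹
    rwa [rip h] at this
  have h2 := rip h (x * y)⁻¹ x
  rw [h1] at h2
  exact h2.symm

theorem left_m (a b x : Q) : (a * (b * a)) * x = a * (b * (a * x)) := by
  rw [← flex h]; exact (h a b x).symm

theorem right_m (a b x : Q) : ((x * a) * b) * a = x * (a * (b * a)) := by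
  have h1 := left_m h a⁻¹ b⁻¹ x⁻¹
  have h2 := congrArg (fun w => w⁻¹) h1
  simp only [inv_rev h, inv_inv h] at h2
  rw [← flex h, ← h2]

theorem atp1 (a y w : Q) : (a * (y * a)) * (a⁻¹ * w) = a * (y * w) := by
  rw [left_m h, lip' h]

theorem atp2 (a x y : Q) : (x * a⁻¹) * (a * (y * a)) = (x * y) * a := by
  rw [← right_m h, rip' h]

theorem middle_m (a b y : Q) : (a * b) * (y * a) = a * ((b * y) * a) := by
  rw [← atp2 h a b y, ← atp1 h a (b * a⁻¹) (a * (y * a)), lip h, rip' h]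

/-- the inner map `L_{x,y}` -/
noncomputable def L (x y w : Q) : Q := (x * y)⁻¹ * (x * (y * w))

omit h in
theorem L_def (x y w : Q) : L x y w = (x * y)⁻¹ * (x * (y * w)) := rfl

theorem L_spec (x y w : Q) : (x * y) * L x y w = x * (y * w) := lip' h _ _

/-- `L_{x,y}` is a pseudo-automorphism -/
theorem L_pseudo (x y a b : Q) :
    L x y (a * b) = (L x y a * ((x * y) * (x⁻¹ * y⁻¹))⁻¹) *
      (((x * y) * (x⁻¹ * y⁻¹)) * L x y b) := by
  -- the autotopism
  have key : ∀ a b : Q, L x y (a * b) =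
      ((x * y)⁻¹ * ((x * ((y * (a * y)) * x)) * (x * y)⁻¹)) * ((x * y) * (x⁻¹ * (y⁻¹ * b))) := by
    intro a b
    have e1 : y * (a * b) = (y * (a * y)) * (y⁻¹ * b) := (atp1 h y a b).symm
    have e2 : x * (y * (a * b)) = (x * ((y * (a * y)) * x)) * (x⁻¹ * (y⁻¹ * b)) := by
      rw [e1, atp1 h x]
    have e3 := atp1 h (x * y)⁻¹ (x * ((y * (a * y)) * x)) (x⁻¹ * (y⁻¹ * b))
    rw [inv_inv h] at e3
    rw [L, e2, ← e3]
  set α : Q → Q := fun a => (x * y)⁻¹ * ((x * ((y * (a * y)) * x)) * (x * y)⁻¹) with hα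
  set β : Q → Q := fun b => (x * y) * (x⁻¹ * (y⁻¹ * b)) with hβ
  have key' : ∀ a b : Q, L x y (a * b) = α a * β b := key
  have hL1 : L x y 1 = 1 := by rw [L, mul_one, inv_mul h]
  have hβ1 : β 1 = (x * y) * (x⁻¹ * y⁻¹) := by simp only [hβ, mul_one]
  have hα1 : α 1 = (β 1)⁻¹ := by
    have := key' 1 1
    rw [mul_one, hL1] at this
    have h2 := rip h (α 1) (β 1)
    rw [← this, one_mul] at h2
    exact h2.symm
  have hαa : ∀ a, α a = L x y a * (β 1)⁻¹ := by
    intro a
    have := key' a 1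
    rw [mul_one] at this
    rw [this, rip h]
  have hβb : ∀ b, β b = β 1 * L x y b := by
    intro b
    have := key' 1 b
    rw [one_mul, hα1] at this
    rw [this, lip' h]
  rw [key' a b, hαa a, hβb b, hβ1]

theorem L_one (x y : Q) : L x y 1 = 1 := by rw [L, mul_one, inv_mul h]

theorem L_inv (x y a : Q) : L x y a⁻¹ = (L x y a)⁻¹ := by
  have h1 := L_pseudo h x y a a⁻¹
  rw [mul_inv, L_one h] at h1
  set c := (x * y) * (x⁻¹ * y⁻¹)
  have h2 := lip h (L x y a * c⁻¹) (c * L x y a⁻¹)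
  rw [← h1, mul_one, inv_rev h, inv_inv h] at h2
  exact (lcan h2).symm

/-- `L_{ab,b} = L_{a,b}` -/
theorem L_move1 (a b w : Q) : L (a * b) b w = L a b w := by
  have h1 : (a * b) * (((a * b) * b)⁻¹ * ((a * b) * (b * w))) = a * (b * w) := by
    have h2 := left_m h (a * b) ((a * b) * b)⁻¹ (b * w)
    rw [← h2]
    congr 1
    rw [inv_rev h, rip' h, rip h]
  have h3 := L_spec h a b w
  rw [← h1] at h3
  exact (lcan h3).symm

/-- `L_{x,yx} = L_{x,y}` -/
theorem L_move2 (x y w : Q) : L x (y * x) w = L x y w := by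
  -- `L_y L_x L_{xy}⁻¹ L_x L_y = L_{yx}`
  have key : y * (x * ((x * y)⁻¹ * (x * (y * w)))) = (y * x) * w := by
    have e1 : x * ((x * y)⁻¹ * (x * (y * w))) = (x * y⁻¹) * (y * w) := by
      rw [← left_m h x (x * y)⁻¹ (y * w)]
      congr 1
      rw [inv_rev h, rip' h]
    rw [e1, ← left_m h y (x * y⁻¹) w]
    congr 1
    rw [rip' h]
  -- `L_{x,yx} = L_x⁻¹ L_y⁻¹ L_{yx}`
  have e2 : y * (x * L x (y * x) w) = (y * x) * w := by
    have h1 : (x * (y * x)) * L x (y * x) w = x * ((y * x) * w) := L_spec h _ _ _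
    rw [left_m h] at h1
    exact lcan h1
  rw [← key] at e2
  exact lcan (lcan e2)

/-- `p (q (p⁻¹ q⁻¹)) = (p q) (p⁻¹ q⁻¹)` -/
theorem comm_assoc (p q : Q) : (p * q) * (p⁻¹ * q⁻¹) = p * (q * (p⁻¹ * q⁻¹)) := by
  have h1 : L p q (q * p) = q * p := by
    rw [L]
    have h2 : p * (q * (q * p)) = (p * q) * (q * p) := by
      rw [middle_m h]
      congr 1
      have := h q 1 p
      rw [one_mul, mul_one] at this
      exact this
    rw [h2, lip h]
  have h2 := L_inv h p q (q * p)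
  rw [h1, inv_rev h] at h2
  have h3 := L_spec h p q (p⁻¹ * q⁻¹)
  rw [h2] at h3
  exact h3

end Mouf

section Half
variable {Q : Type u} {Q' : Type v} [Loop Q] [Loop Q'] {φ : Q → Q'} (hφ : IsHalfHom φ)
include hφ

theorem φ_one : φ 1 = 1 := by
  have h1 : φ (1 * 1) = φ 1 * φ 1 := by
    rcases hφ 1 1 with h | h <;> exact h
  rw [one_mul] at h1
  exact (lcan (a := φ 1) ((mul_one _).trans h1)).symm

theorem φ_mul_right {a k : Q} (hk : φ k = 1) : φ (a * k) = φ a := by
  rcases hφ a k with h | h <;> rw [h, hk]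
  · exact mul_one _
  · exact one_mul _

theorem φ_mul_left {a k : Q} (hk : φ k = 1) : φ (k * a) = φ a := by
  rcases hφ k a with h | h <;> rw [h, hk]
  · exact one_mul _
  · exact mul_one _

theorem φ_solve_right {a x : Q} (h : φ (a * x) = φ a) : φ x = 1 := by
  rcases hφ a x with h1 | h1 <;> rw [h] at h1
  · exact (lcan (a := φ a) ((mul_one _).trans h1)).symm
  · exact (rcan (a := φ a) ((one_mul _).trans h1)).symm

theorem φ_solve_left {a x : Q} (h : φ (x * a) = φ a) : φ x = 1 := by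
  rcases hφ x a with h1 | h1 <;> rw [h] at h1
  · exact (rcan (a := φ a) ((one_mul _).trans h1)).symm
  · exact (lcan (a := φ a) ((mul_one _).trans h1)).symm

/-- the product of two fibres meets at most two fibres -/
theorem two_valued {a b a1 b1 a2 b2 : Q} (h1 : φ a1 = φ a) (h2 : φ b1 = φ b) (h3 : φ a2 = φ a)
    (h4 : φ b2 = φ b) (n1 : φ (a1 * b1) ≠ φ (a * b)) (n2 : φ (a2 * b2) ≠ φ (a * b)) :
    φ (a1 * b1) = φ (a2 * b2) := by
  have e0 := hφ a b
  have e1 := hφ a1 b1
  have e2 := hφ a2 b2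
  rw [h1, h2] at e1
  rw [h3, h4] at e2
  rcases e0 with e0 | e0 <;> rcases e1 with e1 | e1 <;> rcases e2 with e2 | e2 <;>
    first
    | exact absurd (e1.trans e0.symm) n1
    | exact absurd (e2.trans e0.symm) n2
    | exact e1.trans e2.symm

end Half

section Main
variable {Q : Type u} {Q' : Type v} [Loop Q] [Loop Q'] {φ : Q → Q'} (h : IsMoufang Q)
  (hφ : IsHalfHom φ)
include h hφ

theorem φ_eq_right {a x : Q} (hx : φ x = φ a) : φ (a⁻¹ * x) = 1 := by
  apply φ_solve_right hφ (a := a)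
  rw [lip' h]; exact hx

theorem φ_eq_left {a x : Q} (hx : φ x = φ a) : φ (x * a⁻¹) = 1 := by
  apply φ_solve_left hφ (a := a)
  rw [rip' h]; exact hx

omit h in
theorem φ_inv_one {k : Q} (hk : φ k = 1) : φ k⁻¹ = 1 := by
  have := φ_mul_left hφ (a := k⁻¹) hk
  rw [mul_inv, φ_one hφ] at this
  exact this.symm

/-- `κ` does not change the fibre of `u * y` -/
def Same (φ : Q → Q') (x y k : Q) : Prop := φ (x * (y * k)) = φ (x * y)

theorem same_iff (x y k : Q) : Same φ x y k ↔ φ (L x y k) = 1 := by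
  constructor
  · intro hs
    exact φ_eq_right h hφ hs
  · intro hs
    have := φ_mul_right hφ (a := x * y) hs
    rw [L_spec h] at this
    exact this

theorem same_mul {x y k l : Q} (hk : Same φ x y k) (hl : Same φ x y l) : Same φ x y (k * l) := by
  rw [same_iff h hφ] at hk hl ⊢
  rw [L_pseudo h]
  set c := (x * y) * (x⁻¹ * y⁻¹)
  -- `(g c⁻¹) w` with `w = c g'`
  have h1 : φ (L x y k * c⁻¹) = φ c⁻¹ := φ_mul_left hφ hk
  have h2 : φ (c * L x y l)⁻¹ = φ c⁻¹ := by
    rw [inv_rev h]; exact φ_mul_left hφ (φ_inv_one hφ hl)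
  have h3 := φ_eq_left h hφ (a := (c * L x y l)⁻¹) (h1.trans h2.symm)
  rwa [inv_inv h] at h3

theorem same_inv {x y k : Q} (hk : Same φ x y k) : Same φ x y k⁻¹ := by
  rw [same_iff h hφ] at hk ⊢
  rw [L_inv h]
  exact φ_inv_one hφ hk

theorem same_inv_iff {x y k : Q} : Same φ x y k⁻¹ ↔ Same φ x y k :=
  ⟨fun hk => by have := same_inv h hφ hk; rwa [inv_inv h] at this, same_inv h hφ⟩

theorem r1 {x y k : Q} (hk : φ k = 1) : φ ((k * x) * (y * k)) = φ (x * y) := by
  rw [middle_m h, φ_mul_left hφ hk, φ_mul_right hφ hk]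

theorem same_left {x y k : Q} (hk : φ k = 1) : φ ((k * x) * y) = φ (x * y) ↔ Same φ x y k := by
  have h1 := r1 h hφ (x := k * x) (y := y) (φ_inv_one hφ hk)
  rw [lip h] at h1
  rw [← h1]
  exact same_inv_iff h hφ

/-- the relation between the three changes -/
theorem star {x y k : Q} (hk : φ k = 1) :
    Same φ x y ((x * k) * x⁻¹) ↔ (Same φ x y (y⁻¹ * (k * y)) ↔ Same φ x y k) := by
  set b := k * y with hb
  set a := y⁻¹ * b with ha
  have hyk : φ (y * k) = φ y := φ_mul_right hφ hk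
  have hbk : φ b = φ y := φ_mul_left hφ hk
  have ha1 : φ a = 1 := φ_eq_right h hφ hbk
  have hya : y * a = b := lip' h _ _
  have hkb : b * y⁻¹ = k := rip h _ _
  -- left side
  have hl : φ ((x * k) * x⁻¹) = 1 := φ_eq_left h hφ (φ_mul_right hφ hk)
  have e1 : Same φ x y ((x * k) * x⁻¹) ↔ φ (x * (b * k)) = φ (x * y) := by
    rw [← same_left h hφ hl, rip' h]
    have : φ (((x * k) * y) * k) = φ ((x * k) * y) := φ_mul_right hφ hk
    rw [← this, right_m h, ← flex h]
  rw [e1]
  -- `b * k = y * (a * k)`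
  have e2 : b * k = y * (a * k) := by
    have h1 : a * k = y⁻¹ * ((b * b) * y⁻¹) := by
      rw [← hkb, ha, middle_m h]
    rw [h1, lip' h, ← hkb]
    have := h b 1 y⁻¹
    rw [one_mul, mul_one] at this
    exact this
  rw [e2]
  change Same φ x y (a * k) ↔ _
  by_cases hSa : Same φ x y a <;> by_cases hSk : Same φ x y k
  · exact iff_of_true (same_mul h hφ hSa hSk) (iff_of_true hSa hSk)
  · refine iff_of_false (fun hn => hSk ?_) (fun hh => hSk (hh.mp hSa))
    have := same_mul h hφ (same_inv h hφ hSa) hn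
    rwa [lip h] at this
  · refine iff_of_false (fun hn => hSa ?_) (fun hh => hSa (hh.mpr hSk))
    have := same_mul h hφ hn (same_inv h hφ hSk)
    rwa [rip h] at this
  · refine iff_of_true ?_ (iff_of_false hSa hSk)
    by_contra hn
    -- the other fibre
    have nb : φ (x * b) ≠ φ (x * y) := by
      intro hh; apply hSa; rw [Same, hya]; exact hh
    have nk : φ (x * (y * k)) ≠ φ (x * y) := hSk
    have nbk : φ (x * (b * k)) ≠ φ (x * y) := by
      intro hh; apply hn; rw [Same, ← e2]; exact hh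
    have hbk2 : φ (b * k) = φ y := (φ_mul_right hφ hk).trans hbk
    have q1 : φ (x * (b * k)) = φ (x * b) :=
      two_valued hφ (a := x) (b := y) rfl hbk2 rfl hbk nbk nb
    have q2 : φ (x * (y * k)) = φ (x * b) :=
      two_valued hφ (a := x) (b := y) rfl hyk rfl hbk nk nb
    have hs : (b⁻¹ * y) * k = b⁻¹ * (y * k) := by
      have := comm_assoc h b⁻¹ y
      rw [inv_inv h, hkb] at this
      exact this
    have s1 : Same φ x b k := q1
    have s2 : Same φ x b ((b⁻¹ * y) * k) := by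
      rw [hs, Same, lip' h]; exact q2
    have s3 := same_mul h hφ s2 (same_inv h hφ s1)
    rw [rip h, Same, lip' h] at s3
    exact nb s3.symm

/-- the elements of the kernel never change the fibre -/
theorem same_all (x y k : Q) (hk : φ k = 1) : Same φ x y k := by
  have A := star h hφ (x := x) (y := y) hk
  have B := star h hφ (x := x * y) (y := y) hk
  have C := star h hφ (x := x * y) (y := x⁻¹) hk
  have m1 : ∀ w, Same φ (x * y) y w ↔ Same φ x y w := by
    intro w; rw [same_iff h hφ, same_iff h hφ, L_move1 h]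
  have m2 : ∀ w, Same φ (x * y) x⁻¹ w ↔ Same φ x y w := by
    intro w
    rw [← m1 w, same_iff h hφ, same_iff h hφ, ← L_move2 h (x * y) x⁻¹, lip h]
  have e : (x⁻¹)⁻¹ * (k * x⁻¹) = (x * k) * x⁻¹ := by
    rw [inv_inv h]
    apply rcan (a := x)
    rw [rip' h, flex h, rip' h]
  rw [m1, m1, m1] at B
  rw [m2, m2, m2, e] at C
  tauto

end Main

/-- The kernel of a half-homomorphism from a Moufang loop to a loop is a normal subloop. -/
theorem KernelNormal.result {Q : Type u} {Q' : Type v} [Loop Q] [Loop Q'] (hQ : IsMoufang Q)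
    (φ : Q → Q') (hφ : IsHalfHom φ) : IsNormalSubloop {a : Q | φ a = 1} := by
  have all := same_all hQ hφ
  refine ⟨⟨φ_one hφ, ?_, ?_, ?_⟩, fun x y => ⟨?_, ?_, ?_⟩⟩
  · intro a ha b hb
    exact (φ_mul_right hφ hb).trans ha
  · intro a ha b hb x hx
    have h1 : φ (a * x) = φ x := φ_mul_left hφ ha
    rw [hx] at h1
    exact h1.symm.trans hb
  · intro a ha b hb x hx
    have h1 : φ (x * a) = φ x := φ_mul_right hφ ha
    rw [hx] at h1
    exact h1.symm.trans hb
  · ext z
    constructor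
    · rintro ⟨k, hk, rfl⟩
      exact ⟨(x * k) * x⁻¹, φ_eq_left hQ hφ (φ_mul_right hφ hk), rip' hQ _ _⟩
    · rintro ⟨k, hk, rfl⟩
      exact ⟨x⁻¹ * (k * x), φ_eq_right hQ hφ (φ_mul_left hφ hk), lip' hQ _ _⟩
  · ext z
    constructor
    · rintro ⟨k, hk, rfl⟩
      exact ⟨(x * y)⁻¹ * (x * (y * k)), φ_eq_right hQ hφ (all x y k hk), lip' hQ _ _⟩
    · rintro ⟨k, hk, rfl⟩
      refine ⟨y⁻¹ * (x⁻¹ * ((x * y) * k)), φ_eq_right hQ hφ ?_, ?_⟩
      · have := all x⁻¹ (x * y) k hk
        rw [Same, lip hQ] at this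
        exact this
      · change x * (y * (y⁻¹ * (x⁻¹ * ((x * y) * k)))) = _
        rw [lip' hQ, lip' hQ]
  · ext z
    constructor
    · rintro ⟨k, hk, rfl⟩
      exact ⟨((k * x) * y) * (x * y)⁻¹,
        φ_eq_left hQ hφ ((same_left hQ hφ hk).mpr (all x y k hk)), rip' hQ _ _⟩
    · rintro ⟨k, hk, rfl⟩
      refine ⟨((k * (x * y)) * y⁻¹) * x⁻¹, φ_eq_left hQ hφ ?_, ?_⟩
      · have := (same_left hQ hφ (x := x * y) (y := y⁻¹) hk).mpr (all (x * y) y⁻¹ k hk)
        rw [rip hQ] at this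
        exact this
      · change ((((k * (x * y)) * y⁻¹) * x⁻¹) * x) * y = _
        rw [rip' hQ, rip' hQ]

end Pool.Agent.Results.MP_d39372_al
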